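import Mathlib
import Pool.Agent.CycSyl.Final
import Pool.Agent.AllCyc.Final

/-!
For every odd prime `p` and every `v ≥ 1`, every cyclic group of order `p ^ v` is the
`p`-primary part of the class group of infinitely many imaginary quadratic fields.
-/

set_option autoImplicit false

namespace Pool.Agent.Results.MP_0f260b_nt.AllCyclic

/-- For every odd prime `p`, every `v ≥ 1` and every cyclic group `H` of order `p ^ v` there are
infinitely many imaginary quadratic fields `K` (as subfields of `ℂ`) such that the `p`-primary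
part of the class group of `K` is isomorphic to `H`. -/
theorem result (p : ℕ) (hp : p.Prime) (hp2 : p ≠ 2) (v : ℕ) (hv : 1 ≤ v)
    (H : Type) [CommGroup H] [Finite H] (hcyc : IsCyclic H) (hH : Nat.card H = p ^ v) :
    Set.Infinite {K : IntermediateField ℚ ℂ | ∃ hK : NumberField K,
      Module.finrank ℚ K = 2 ∧ (∃ x : K, (x : ℂ).im ≠ 0) ∧
      Nonempty (↥(Subgroup.closure
        {g : ClassGroup (NumberField.RingOfIntegers K) | ∃ n : ℕ, g ^ (p ^ n) = 1}) ≃* H)} := by
  obtain ⟨u, rfl⟩ : ∃ u, v = u + 1 := ⟨v - 1, by omega⟩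
  by_cases h3 : p = 3
  · subst h3
    exact Pool.Agent.CycSyl.main3 u H hcyc hH
  · have hp4 : p ≠ 4 := by
      rintro rfl
      revert hp
      decide
    have hp5 : 5 ≤ p := by
      have := hp.two_le
      omega
    exact Pool.Agent.AllCyc.main hp hp5 u H hcyc hH

end Pool.Agent.Results.MP_0f260b_nt.AllCyclic
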