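import Mathlib
import Pool.Agent.LB.FinR

/-!
The `H`-moment of the class groups of imaginary quadratic fields for `|H| = 5`, truncated at `X`,
lies between two positive constants.
-/

set_option autoImplicit false

namespace Pool.Agent.Results.MP_0f260b_nt.FiveMomentOrder

/-- Let `H` be a group of order 5.  There are real numbers `b > 0`, `B` and `X0` such that for every
`X ≥ X0` the set of imaginary quadratic fields `K` (as subfields of `ℂ`) with `|D_K| ≤ X` is
finite, and the average over this set of the number of surjective homomorphisms of the 5-primary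
part of `Cl(K)` onto `H` lies between `b` and `B`. -/
theorem result (H : Type) [CommGroup H] (hH : Nat.card H = 5) :
    ∃ b B X0 : ℝ, 0 < b ∧ ∀ X : ℝ, X0 ≤ X →
      ({K : IntermediateField ℚ ℂ | ∃ _ : NumberField K, Module.finrank ℚ K = 2 ∧
        (∃ x : K, (x : ℂ).im ≠ 0) ∧ |((NumberField.discr K : ℤ) : ℝ)| ≤ X}).Finite ∧
      b ≤
      (∑ᶠ K ∈ {K : IntermediateField ℚ ℂ | ∃ _ : NumberField K, Module.finrank ℚ K = 2 ∧
        (∃ x : K, (x : ℂ).im ≠ 0) ∧ |((NumberField.discr K : ℤ) : ℝ)| ≤ X},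
        (Nat.card {f : ↥(Subgroup.closure
          {g : ClassGroup (NumberField.RingOfIntegers K) | ∃ n : ℕ, g ^ (5 ^ n) = 1}) →* H //
            Function.Surjective f} : ℝ)) /
        ({K : IntermediateField ℚ ℂ | ∃ _ : NumberField K, Module.finrank ℚ K = 2 ∧
          (∃ x : K, (x : ℂ).im ≠ 0) ∧ |((NumberField.discr K : ℤ) : ℝ)| ≤ X}).ncard ∧
      (∑ᶠ K ∈ {K : IntermediateField ℚ ℂ | ∃ _ : NumberField K, Module.finrank ℚ K = 2 ∧
        (∃ x : K, (x : ℂ).im ≠ 0) ∧ |((NumberField.discr K : ℤ) : ℝ)| ≤ X},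
        (Nat.card {f : ↥(Subgroup.closure
          {g : ClassGroup (NumberField.RingOfIntegers K) | ∃ n : ℕ, g ^ (5 ^ n) = 1}) →* H //
            Function.Surjective f} : ℝ)) /
        ({K : IntermediateField ℚ ℂ | ∃ _ : NumberField K, Module.finrank ℚ K = 2 ∧
          (∃ x : K, (x : ℂ).im ≠ 0) ∧ |((NumberField.discr K : ℤ) : ℝ)| ≤ X}).ncard ≤ B :=
  Pool.Agent.LB.two_sided H hH

end Pool.Agent.Results.MP_0f260b_nt.FiveMomentOrder
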