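import Mathlib
import Pool.Agent.PPC.Brg
import Pool.Agent.PPL.PosL
import Pool.Agent.FTL.LNc
import Pool.Agent.FTA.Main

/-!
# A positive proportion of the imaginary quadratic fields has class number divisible by 3 and
discriminant in a prescribed residue class
-/

set_option autoImplicit false

namespace Pool.Agent.Results.MP_0f260b_nt.PositiveProportion

open NumberField

/-- the imaginary quadratic fields `K` (as subfields of `ℂ`) with `|D_K| ≤ X` -/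
def Fields (X : ℝ) : Set (IntermediateField ℚ ℂ) :=
  {K | ∃ _ : NumberField K, Module.finrank ℚ K = 2 ∧ (∃ x : K, (x : ℂ).im ≠ 0) ∧
    |((NumberField.discr K : ℤ) : ℝ)| ≤ X}

/-- the number fields `K` (as subfields of `ℂ`) with `D_K` congruent to `r` modulo `m` -/
def Cong (m : ℕ) (r : ℤ) : Set (IntermediateField ℚ ℂ) :=
  {K | ∃ _ : NumberField K, NumberField.discr K ≡ r [ZMOD (m : ℤ)]}

/-- Let `m ≥ 1` and let `r` be a residue class modulo `m` which contains the discriminant of at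
least one imaginary quadratic field `K0`.  There are real numbers `c > 0` and `X0` such that for all
`X ≥ X0` the set of the imaginary quadratic fields `K` with `|D_K| ≤ X` is finite and not empty, and
the proportion of the `K` in this set with `D_K ≡ r` modulo `m` and `3 ∣ |Cl(K)|` is at least `c`.
(For `m = 1` there is no condition on `D_K`.) -/
theorem result (m : ℕ) (hm : 1 ≤ m) (r : ℤ) (hr : ∃ X1 : ℝ, ∃ K0 ∈ Fields X1, K0 ∈ Cong m r) :
    ∃ c X0 : ℝ, 0 < c ∧ ∀ X : ℝ, X0 ≤ X →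
    (Fields X).Finite ∧ 0 < (Fields X).ncard ∧
    c ≤ (({K ∈ Fields X | K ∈ Cong m r ∧
        3 ∣ Nat.card (ClassGroup (NumberField.RingOfIntegers K))}).ncard : ℝ) /
      (Fields X).ncard := by
  obtain ⟨X1, K0, ⟨hn0, h20, him0, -⟩, ⟨hn0', hr0⟩⟩ := hr
  have hK0 := Pool.Agent.PPL.disc_eq K0 h20 him0
  have hF0 := Pool.Agent.PPL.fd_of K0 h20 him0
  have hr1 : (m : ℤ) ∣ (Pool.Agent.FTA.aD K0 : ℤ) + r := by
    have h1 := hr0.dvd
    rw [hK0] at h1
    have h3 : r - -(Pool.Agent.FTA.aD K0 : ℤ) = (Pool.Agent.FTA.aD K0 : ℤ) + r := by ring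
    rwa [h3] at h1
  obtain ⟨c, hc, X0, h⟩ := Pool.Agent.PPL.pos Pool.Agent.PPC.masf m hm
    (Pool.Agent.FTA.aD K0 : ℤ) hF0
  refine ⟨c / 2, max X0 (10 ^ 5), by positivity, fun X hX => ?_⟩
  have hXa : X0 ≤ X := (le_max_left _ _).trans hX
  have hXb : (10 : ℝ) ^ 5 ≤ X := (le_max_right _ _).trans hX
  have hX0 : (0 : ℝ) < X := by linarith [show (0 : ℝ) < 10 ^ 5 by norm_num]
  have hF : Fields X = Pool.Agent.FTA.IQ ⌊X⌋₊ := Pool.Agent.FTA.set_eq X hX0.le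
  have hfl : X / 2 ≤ (⌊X⌋₊ : ℝ) := by
    have := Nat.lt_floor_add_one X
    linarith [show (2 : ℝ) ≤ 10 ^ 5 by norm_num]
  have hN1 : X / 32 ≤ ((Pool.Agent.FTA.IQ ⌊X⌋₊).ncard : ℝ) := by
    have h := Pool.Agent.FTL.lnc ⌊X⌋₊ (by
      apply Nat.le_floor
      push_cast
      linarith [show (10 : ℝ) ^ 4 ≤ 10 ^ 5 by norm_num])
    linarith
  have hN0 : (0 : ℝ) < ((Pool.Agent.FTA.IQ ⌊X⌋₊).ncard : ℝ) := by linarith
  have hup : ((Pool.Agent.FTA.IQ ⌊X⌋₊).ncard : ℝ) ≤ X := by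
    have h1 := Pool.Agent.FTA.famCard ⌊X⌋₊
    have h2 : ((Pool.Agent.FTA.IQ ⌊X⌋₊).ncard : ℝ) ≤ (⌊X⌋₊ : ℝ) := by exact_mod_cast h1
    exact h2.trans (Nat.floor_le hX0.le)
  have hset : {K ∈ Fields X | K ∈ Cong m r ∧
        3 ∣ Nat.card (ClassGroup (NumberField.RingOfIntegers K))} =
      {K ∈ Pool.Agent.PPL.IR m (Pool.Agent.FTA.aD K0 : ℤ) ⌊X⌋₊ |
        3 ∣ Nat.card (ClassGroup (NumberField.RingOfIntegers K))} := by
    rw [hF]
    ext K
    constructor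
    · rintro ⟨hK, ⟨hn, hd⟩, h3⟩
      refine ⟨⟨hK, ?_⟩, h3⟩
      obtain ⟨hn', h2, him, -⟩ := hK
      have h4 := Pool.Agent.PPL.disc_eq K h2 him
      have h5 := hd.dvd
      rw [h4] at h5
      have h6 := dvd_sub h5 hr1
      have h7 : r - -(Pool.Agent.FTA.aD K : ℤ) - ((Pool.Agent.FTA.aD K0 : ℤ) + r) =
        (Pool.Agent.FTA.aD K : ℤ) - (Pool.Agent.FTA.aD K0 : ℤ) := by ring
      rwa [h7] at h6
    · rintro ⟨⟨hK, hd⟩, h3⟩
      refine ⟨hK, ?_, h3⟩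
      obtain ⟨hn', h2, him, -⟩ := hK
      refine ⟨hn', ?_⟩
      have h4 := Pool.Agent.PPL.disc_eq K h2 him
      rw [h4]
      apply Int.modEq_iff_dvd.2
      have h6 := dvd_add hd hr1
      have h7 : (Pool.Agent.FTA.aD K : ℤ) - (Pool.Agent.FTA.aD K0 : ℤ) +
          ((Pool.Agent.FTA.aD K0 : ℤ) + r) = r - -(Pool.Agent.FTA.aD K : ℤ) := by ring
      rwa [h7] at h6
  rw [hset, hF]
  refine ⟨Pool.Agent.FTA.famFin _, by exact_mod_cast hN0, ?_⟩
  rw [le_div_iff₀ hN0]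
  have h1 := h X hXa
  have h2 : c / 2 * ((Pool.Agent.FTA.IQ ⌊X⌋₊).ncard : ℝ) ≤ c * X := by nlinarith
  exact h2.trans h1

end Pool.Agent.Results.MP_0f260b_nt.PositiveProportion
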