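import Mathlib
import Pool.Agent.PPC.Brg
import Pool.Agent.SMI.FaM
import Pool.Agent.SML.Fin

/-!
# The moments for the groups of order 9 of the class groups of imaginary quadratic fields

The `H`-moments for the two groups `H` of order 9, truncated at `X`, are at most a constant `C`, and
for `H = (Z/3) ^ 2` the truncated moment lies between `X ^ (-ε)` and `C`, for all large `X`.
-/

set_option autoImplicit false

namespace Pool.Agent.Results.MP_0f260b_nt.SecondMoment

open NumberField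

/-- the imaginary quadratic fields `K` (as subfields of `ℂ`) with `|D_K| ≤ X` -/
def Fields (X : ℝ) : Set (IntermediateField ℚ ℂ) :=
  {K | ∃ _ : NumberField K, Module.finrank ℚ K = 2 ∧ (∃ x : K, (x : ℂ).im ≠ 0) ∧
    |((NumberField.discr K : ℤ) : ℝ)| ≤ X}

/-- There is a real number `C` such that for every `ε > 0` there is `X0` such that for all `X ≥ X0`
the set of the imaginary quadratic fields `K` with `|D_K| ≤ X` is finite and not empty, and for every
abelian group `H` of order 9 the `H`-moment truncated at `X`, that is the average over this set of the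
number of surjective homomorphisms of the 3-primary part of `Cl(K)` onto `H`, is at most `C`, and, if
`H` has exponent 3, at least `X ^ (-ε)`. -/
theorem result : ∃ C : ℝ, ∀ ε : ℝ, 0 < ε → ∃ X0 : ℝ, ∀ X : ℝ, X0 ≤ X →
    (Fields X).Finite ∧ 0 < (Fields X).ncard ∧
    ∀ (H : Type) [CommGroup H], Nat.card H = 9 →
      (∑ᶠ K ∈ Fields X, (Nat.card {f : ↥(Subgroup.closure
        {g : ClassGroup (NumberField.RingOfIntegers K) | ∃ n : ℕ, g ^ (3 ^ n) = 1}) →* H //
          Function.Surjective f} : ℝ)) / (Fields X).ncard ≤ C ∧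
      ((∀ h : H, h ^ 3 = 1) →
        X ^ (-ε) ≤ (∑ᶠ K ∈ Fields X, (Nat.card {f : ↥(Subgroup.closure
          {g : ClassGroup (NumberField.RingOfIntegers K) | ∃ n : ℕ, g ^ (3 ^ n) = 1}) →* H //
            Function.Surjective f} : ℝ)) / (Fields X).ncard) := by
  obtain ⟨C, hC0, hC⟩ := Pool.Agent.PPC.masf
  refine ⟨32 * C, fun ε hε => ?_⟩
  obtain ⟨X1, hL⟩ := Pool.Agent.SML.finL ε hε
  refine ⟨max X1 (10 ^ 5), fun X hXm => ?_⟩
  have hX : (10 : ℝ) ^ 5 ≤ X := (le_max_right _ _).trans hXm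
  have hX0 : (0 : ℝ) < X := by linarith [show (0 : ℝ) < 10 ^ 5 by norm_num]
  have hX1 : (1 : ℝ) ≤ X := by linarith [show (1 : ℝ) ≤ 10 ^ 5 by norm_num]
  have hF : Fields X = Pool.Agent.FTA.IQ ⌊X⌋₊ := Pool.Agent.FTA.set_eq X hX0.le
  rw [hF]
  have hfl : X / 2 ≤ (⌊X⌋₊ : ℝ) := by
    have := Nat.lt_floor_add_one X
    linarith [show (2 : ℝ) ≤ 10 ^ 5 by norm_num]
  have hN1 : X / 32 ≤ ((Pool.Agent.FTA.IQ ⌊X⌋₊).ncard : ℝ) := by
    have h := Pool.Agent.FTL.lnc ⌊X⌋₊ (by
      apply Nat.le_floor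
      push_cast
      linarith [show (10 : ℝ) ^ 4 ≤ 10 ^ 5 by norm_num])
    linarith
  have hN0 : (0 : ℝ) < ((Pool.Agent.FTA.IQ ⌊X⌋₊).ncard : ℝ) := by linarith
  have h1 := hC X hX1
  have h2 : C * X ≤ 32 * C * ((Pool.Agent.FTA.IQ ⌊X⌋₊).ncard : ℝ) := by
    have := mul_le_mul_of_nonneg_left hN1 hC0.le
    linarith
  refine ⟨Pool.Agent.FTA.famFin _, by exact_mod_cast hN0, ?_⟩
  intro H _ hH
  refine ⟨?_, fun h3 => ?_⟩
  · rw [div_le_iff₀ hN0]
    exact ((Pool.Agent.SMI.faM_sur _ H hH).trans h1).trans h2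
  · exact hL X ((le_max_left _ _).trans hXm) H hH h3

end Pool.Agent.Results.MP_0f260b_nt.SecondMoment
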